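import Pool.Agent.Y136.AreaBdd.Main

set_option autoImplicit false

open scoped Topology ContDiff Manifold commutatorElement
open Pool.Agent.Results.MP_ac1d8d_gt.PerfectSurface Pool.Agent.Y136.AreaBdd

namespace Pool.Agent.Results.MP_ac1d8d_gt.BoundedGroup

/-- There is a surface `S` of infinite type with an area form `a` such that for the group
`G = DiffArea a` of all area preserving diffeomorphisms: every element is a product of two
commutators; for one element `t ≠ 1`, every element is a product
`(x t x⁻¹) (y t⁻¹ y⁻¹) (z t z⁻¹) (w t⁻¹ w⁻¹)`; every conjugation invariant norm `ν` on `G` is bounded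
by `4 ν(t)`; every homogeneous quasimorphism on `G` is zero. In particular `G` is perfect. -/
theorem result : ∃ (S : Type) (_ : TopologicalSpace S) (_ : ChartedSpace Plane S)
    (_ : IsManifold 𝓘(ℝ, Plane) ∞ S) (_ : T2Space S) (_ : SecondCountableTopology S)
    (_ : ConnectedSpace S) (a : AreaForm S),
    InfiniteType S ∧ Group.IsPerfect (DiffArea a) ∧
      (∀ g : DiffArea a, ∃ b c d e : DiffArea a, g = ⁅b, c⁆ * ⁅d, e⁆) ∧
      (∃ t : DiffArea a, t ≠ 1 ∧ (∀ g, FourConj t g) ∧
        ∀ ν : DiffArea a → ℝ, IsConjNorm ν → ∀ g, ν g ≤ 4 * ν t) ∧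
      ∀ φ : DiffArea a → ℝ, IsHomogQuasi φ → ∀ g, φ g = 0 := by
  obtain ⟨t, h1, h2⟩ := exists_t
  refine ⟨U, inferInstance, inferInstance, inferInstance, inferInstance, inferInstance,
    inferInstance, area, infiniteType_U, ⟨?_⟩, two_commutators,
    ⟨t, h1, h2, fun ν hν g => conjNorm_le hν (h2 g)⟩, fun φ hφ g => quasi_eq_zero h2 hφ g⟩
  rw [eq_top_iff]
  intro g _
  obtain ⟨b, c, d, e, rfl⟩ := two_commutators g
  exact Subgroup.mul_mem _ (Subgroup.commutator_mem_commutator (Subgroup.mem_top _)
    (Subgroup.mem_top _)) (Subgroup.commutator_mem_commutator (Subgroup.mem_top _)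
    (Subgroup.mem_top _))

end Pool.Agent.Results.MP_ac1d8d_gt.BoundedGroup
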